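import Pool.Agent.H856.WC.Pert
import Pool.Graph.R_seed8.H498R2.KlField

/-! # The coefficients of the L-function of `ψ (f (x))` -/

set_option autoImplicit false
set_option linter.all false
set_option linter.unusedSectionVars false

open Polynomial

namespace Pool.Agent.H856.WC

open Pool.Agent.H341R2.Sharp Pool.Agent.H498R2.Kl

section

variable {k : Type} [Field k] [Fintype k] [DecidableEq k]

/-- the multiplicative function on monic polynomials -/
noncomputable def lam (ψ : AddChar k ℂ) (f h : k[X]) : ℂ := ψ (FF f h)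

theorem lam_mult (ψ : AddChar k ℂ) (f : k[X]) : Mult (lam ψ f) := by
  constructor
  · unfold lam
    rw [FF_one, AddChar.map_zero_eq_one]
  · intro g h hg hh
    unfold lam
    rw [FF_mul f hg hh, AddChar.map_add_eq_mul]

theorem add_mem_Mon {n : ℕ} {h g : k[X]} (hh : h ∈ Mon k n) (hg : g.degree < n) :
    h + g ∈ Mon k n := by
  rw [mem_Mon] at hh ⊢
  have hdeg : g.degree < h.degree := by
    rw [degree_eq_natDegree hh.1.ne_zero, hh.2]
    exact hg
  exact ⟨hh.1.add_of_left hdeg, by rw [natDegree_add_eq_left_of_degree_lt hdeg, hh.2]⟩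

theorem sum_shift_Mon {n : ℕ} (F : k[X] → ℂ) {g : k[X]} (hg : g.degree < n) :
    ∑ h ∈ Mon k n, F (h + g) = ∑ h ∈ Mon k n, F h := by
  have hg' : (-g).degree < n := by rwa [degree_neg]
  refine Finset.sum_bij' (fun h _ => h + g) (fun h _ => h + (-g)) ?_ ?_ ?_ ?_ ?_
  · intro h hh
    exact add_mem_Mon hh hg
  · intro h hh
    exact add_mem_Mon hh hg'
  · intro h _
    ring
  · intro h _
    ring
  · intro h _
    rfl

theorem natDegree_lt_of {g : k[X]} {m n : ℕ} (hg : g.degree < m) (hmn : m ≤ n) (hn : 0 < n) :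
    g.natDegree < n := by
  rcases eq_or_ne g 0 with rfl | h0
  · simpa using hn
  · rw [degree_eq_natDegree h0] at hg
    have : g.natDegree < m := by exact_mod_cast hg
    omega

/-- the coefficients vanish in degree at least `deg f` -/
theorem AG_eq_zero {ψ : AddChar k ℂ} (hψ : ψ ≠ 1) {f : k[X]} (hd : (f.natDegree : k) ≠ 0) {n : ℕ}
    (hn : f.natDegree ≤ n) : AG (lam ψ f) n = 0 := by
  obtain ⟨t0, ht0⟩ := AddChar.ne_one_iff.1 hψ
  have hpos := nd_pos hd
  set D : k := f.natDegree * f.leadingCoeff with hD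
  have hD0 : D ≠ 0 := mul_ne_zero hd (lc_ne hd)
  set g : k[X] := C (-(D⁻¹ * t0)) * X ^ (n - f.natDegree) with hg
  have hgd : g.degree < n := by
    refine (degree_C_mul_X_pow_le _ _).trans_lt ?_
    exact_mod_cast (by omega : n - f.natDegree < n)
  have hval : ∀ h ∈ Mon k n, lam ψ f (h + g) = ψ t0 * lam ψ f h := by
    intro h hh
    rw [mem_Mon] at hh
    have hnd : g.natDegree + f.natDegree ≤ h.natDegree := by
      have := natDegree_C_mul_X_pow_le (-(D⁻¹ * t0)) (n - f.natDegree)
      rw [← hg] at this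
      rw [hh.2]
      omega
    unfold lam
    rw [FF_add hh.1 hpos hnd (by omega), ← AddChar.map_add_eq_mul]
    congr 1
    have hL : LL f h g = -t0 := by
      unfold LL
      have h1 : (reflect h.natDegree g : PowerSeries k) =
          PowerSeries.C (-(D⁻¹ * t0)) * PowerSeries.X ^ f.natDegree := by
        rw [hg, reflect_C_mul_X_pow, hh.2, revAt_le (by omega),
          show n - (n - f.natDegree) = f.natDegree by omega]
        simp
      rw [h1, Finset.sum_range_succ, Finset.sum_eq_zero, zero_add]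
      · have h2 : PowerSeries.C (-(D⁻¹ * t0)) * PowerSeries.X ^ f.natDegree *
            (h.reverse : PowerSeries k)⁻¹ = PowerSeries.X ^ f.natDegree *
            (PowerSeries.C (-(D⁻¹ * t0)) * (h.reverse : PowerSeries k)⁻¹) := by ring
        rw [h2, PowerSeries.coeff_X_pow_mul', if_pos le_rfl, Nat.sub_self,
          PowerSeries.coeff_C_mul, PowerSeries.coeff_zero_eq_constantCoeff_apply,
          PowerSeries.constantCoeff_inv, cc_reverse hh.1, inv_one, mul_one, coeff_natDegree]
        have : f.leadingCoeff * (f.natDegree * -(D⁻¹ * t0)) = -(D * D⁻¹ * t0) := by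
          rw [hD]
          ring
        rw [this, mul_inv_cancel₀ hD0, one_mul]
      · intro j hj
        rw [Finset.mem_range] at hj
        have h2 : PowerSeries.C (-(D⁻¹ * t0)) * PowerSeries.X ^ f.natDegree *
            (h.reverse : PowerSeries k)⁻¹ = PowerSeries.X ^ f.natDegree *
            (PowerSeries.C (-(D⁻¹ * t0)) * (h.reverse : PowerSeries k)⁻¹) := by ring
        rw [h2, PowerSeries.coeff_X_pow_mul', if_neg (by omega), mul_zero, mul_zero]
    rw [hL]
    ring
  have h1 : AG (lam ψ f) n = ψ t0 * AG (lam ψ f) n := by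
    unfold AG
    conv_lhs => rw [← sum_shift_Mon (fun h => lam ψ f h) hgd, Finset.sum_congr rfl hval]
    rw [Finset.mul_sum]
  have h2 : (1 - ψ t0) * AG (lam ψ f) n = 0 := by
    linear_combination h1
  rcases mul_eq_zero.1 h2 with h | h
  · exact absurd (sub_eq_zero.1 h).symm ht0
  · exact h

noncomputable instance fin_degreeLT (m : ℕ) : Fintype (degreeLT k m) :=
  Fintype.ofEquiv _ (degreeLTEquiv k m).toEquiv.symm

theorem card_degreeLT (m : ℕ) : Fintype.card (degreeLT k m) = Fintype.card k ^ m := by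
  rw [Fintype.card_congr (degreeLTEquiv k m).toEquiv]
  simp

theorem sum_char {ψ : AddChar k ℂ} (hψ : ψ ≠ 1) {m : ℕ} (ℓ : degreeLT k m →ₗ[k] k) :
    ∑ g, ψ (-(ℓ g)) = if ℓ = 0 then ((Fintype.card k : ℂ) ^ m) else 0 := by
  let χ : AddChar (degreeLT k m) ℂ :=
    { toFun := fun g => ψ (-(ℓ g))
      map_zero_eq_one' := by simp
      map_add_eq_mul' := by
        intro a b
        rw [map_add, neg_add, AddChar.map_add_eq_mul] }
  have h1 : ∑ g, ψ (-(ℓ g)) = ∑ g, χ g := rfl
  split_ifs with h
  · rw [h]
    simp only [LinearMap.zero_apply, neg_zero, AddChar.map_zero_eq_one, Finset.sum_const,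
      Finset.card_univ, nsmul_eq_mul, mul_one, card_degreeLT]
    push_cast
    rfl
  · rw [h1]
    apply AddChar.sum_eq_zero_of_ne_one
    obtain ⟨t0, ht0⟩ := AddChar.ne_one_iff.1 hψ
    obtain ⟨g, hg⟩ : ∃ g, ℓ g ≠ 0 := by
      by_contra hcon
      push Not at hcon
      exact h (LinearMap.ext hcon)
    apply AddChar.ne_one_iff.2
    refine ⟨(-(t0 * (ℓ g)⁻¹)) • g, ?_⟩
    change ψ (-(ℓ ((-(t0 * (ℓ g)⁻¹)) • g))) ≠ 1
    rw [map_smul, smul_eq_mul, neg_mul, neg_neg, mul_assoc, inv_mul_cancel₀ hg, mul_one]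
    exact ht0

/-- the linear term as a linear map -/
noncomputable def LLm (f h : k[X]) (m : ℕ) : degreeLT k m →ₗ[k] k where
  toFun g := LL f h g
  map_add' a b := by simp [LL_add]
  map_smul' c a := by
    simp only [SetLike.val_smul, RingHom.id_apply, smul_eq_mul]
    rw [smul_eq_C_mul, LL_C_mul]

/-- the coefficient in degree `deg f - 1` -/
theorem AG_top_aux {ψ : AddChar k ℂ} (hψ : ψ ≠ 1) {f : k[X]} (hd : (f.natDegree : k) ≠ 0)
    (m : ℕ) (hm : f.natDegree - 1 = 2 * m ∨ f.natDegree - 1 = 2 * m + 1) :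
    AG (lam ψ f) (f.natDegree - 1) =
      ∑ g : degreeLT k (f.natDegree - 1 - m), lam ψ f (hc f + g) := by
  classical
  have hpos := nd_pos hd
  set N := f.natDegree - 1 with hN
  have hq : ((Fintype.card k : ℂ) ^ m) ≠ 0 := pow_ne_zero _ (by exact_mod_cast Fintype.card_ne_zero)
  have hmN : m ≤ N := by omega
  have key : ∀ h ∈ Mon k N, ∑ g : degreeLT k m, lam ψ f (h + g) =
      (Fintype.card k : ℂ) ^ m * (if LLm f h m = 0 then lam ψ f h else 0) := by
    intro h hh
    rw [mem_Mon] at hh
    have h1 : ∀ g : degreeLT k m, lam ψ f (h + g) = lam ψ f h * ψ (-(LLm f h m g)) := by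
      intro g
      have hg := mem_degreeLT.1 g.2
      unfold lam
      rw [← AddChar.map_add_eq_mul]
      congr 1
      rcases eq_or_ne (g : k[X]) 0 with h0 | h0
      · change _ = FF f h + -(LL f h g)
        rw [h0]
        have : LL f h 0 = 0 := by
          have := LL_C_mul f h 0 0
          simpa using this
        rw [this]
        simp
      · have hg2 : (g : k[X]).natDegree < m := by
          rw [degree_eq_natDegree h0] at hg
          exact_mod_cast hg
        have := FF_add (f := f) (g := (g : k[X])) hh.1 (s := N + 1 - m) (by omega)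
          (by rw [hh.2]; omega) (by omega)
        rw [this]
        change _ = FF f h + -(LL f h g)
        ring
    simp_rw [h1]
    rw [← Finset.mul_sum, sum_char hψ]
    split_ifs with h2
    · ring
    · ring
  have h2 : (Fintype.card k : ℂ) ^ m * AG (lam ψ f) N =
      (Fintype.card k : ℂ) ^ m * ∑ h ∈ (Mon k N).filter (fun h => LLm f h m = 0), lam ψ f h := by
    have e1 : ∑ g : degreeLT k m, ∑ h ∈ Mon k N, lam ψ f (h + g) =
        (Fintype.card k : ℂ) ^ m * AG (lam ψ f) N := by
      have e2 : ∀ g : degreeLT k m, ∑ h ∈ Mon k N, lam ψ f (h + g) = AG (lam ψ f) N := by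
        intro g
        apply sum_shift_Mon (fun h => lam ψ f h)
        refine (mem_degreeLT.1 g.2).trans_le ?_
        exact_mod_cast hmN
      rw [Finset.sum_congr rfl fun g _ => e2 g, Finset.sum_const, Finset.card_univ,
        card_degreeLT, nsmul_eq_mul]
      push_cast
      rfl
    rw [← e1, Finset.sum_comm, Finset.sum_congr rfl key, ← Finset.mul_sum, Finset.sum_filter]
  have h3 := mul_left_cancel₀ hq h2
  rw [h3]
  symm
  refine Finset.sum_bij (fun g _ => hc f + (g : k[X])) ?_ ?_ ?_ ?_
  · intro g _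
    have hg := mem_degreeLT.1 g.2
    have hhc : hc f ∈ Mon k N := by
      rw [mem_Mon]
      exact ⟨hc_monic hd, hc_natDegree hd⟩
    have hmem : hc f + (g : k[X]) ∈ Mon k N := by
      apply add_mem_Mon hhc
      refine hg.trans_le ?_
      exact_mod_cast (by omega : N - m ≤ N)
    rw [Finset.mem_filter]
    refine ⟨hmem, LinearMap.ext fun g' => ?_⟩
    change LL f (hc f + (g : k[X])) g' = 0
    rcases eq_or_ne (g' : k[X]) 0 with h0 | h0
    · rw [h0]
      have := LL_C_mul f (hc f + (g : k[X])) 0 0
      simpa using this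
    have hg'2 : (g' : k[X]).natDegree < m := by
      have := mem_degreeLT.1 g'.2
      rw [degree_eq_natDegree h0] at this
      exact_mod_cast this
    have hg2 : (g : k[X]).natDegree < N - m := natDegree_lt_of hg le_rfl (by omega)
    exact LL_zero' hd (s := m + 1) (t := N - m + 1) (by omega) (by omega) (by omega) (by omega)
      (by omega)
  · intro g _ g' _ h
    exact Subtype.ext (add_left_cancel h)
  · intro h hh
    rw [Finset.mem_filter, mem_Mon] at hh
    refine ⟨⟨h - hc f, ?_⟩, Finset.mem_univ _, by simp⟩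
    rw [mem_degreeLT]
    apply LL_zero hd hh.1.1 hh.1.2 (by omega)
    intro g hg
    have := congrArg (fun φ => φ ⟨g, mem_degreeLT.2 hg⟩) hh.2
    exact this
  · intro g _
    rfl

end

end Pool.Agent.H856.WC
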