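import Pool.Agent.H856.WC.Pow

/-! # Variation of the sum of the values of a polynomial at the roots of another one -/

set_option autoImplicit false
set_option linter.all false

open Polynomial

namespace Pool.Agent.H856.WC

variable {k : Type*} [Field k]

/-- the linear term of the variation -/
noncomputable def LL (f h g : k[X]) : k :=
  ∑ j ∈ Finset.range (f.natDegree + 1), f.coeff j * (j * PowerSeries.coeff j
    ((reflect h.natDegree g : PowerSeries k) * (h.reverse : PowerSeries k)⁻¹))

theorem LL_add (f h g₁ g₂ : k[X]) : LL f h (g₁ + g₂) = LL f h g₁ + LL f h g₂ := by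
  unfold LL
  rw [← Finset.sum_add_distrib]
  refine Finset.sum_congr rfl fun j _ => ?_
  rw [reflect_add, Polynomial.coe_add, add_mul, map_add]
  ring

theorem LL_C_mul (f h g : k[X]) (c : k) : LL f h (C c * g) = c * LL f h g := by
  unfold LL
  rw [Finset.mul_sum]
  refine Finset.sum_congr rfl fun j _ => ?_
  have h1 : (reflect h.natDegree (C c * g) : k[X]) = C c * reflect h.natDegree g := by
    ext i
    rw [coeff_reflect, coeff_C_mul, coeff_C_mul, coeff_reflect]
  rw [h1, Polynomial.coe_mul, Polynomial.coe_C, mul_assoc, PowerSeries.coeff_C_mul]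
  ring

theorem natDegree_add_lt {h g : k[X]} {s : ℕ} (hs : 0 < s) (hg : g.natDegree + s ≤ h.natDegree) :
    (h + g).natDegree = h.natDegree := by
  apply natDegree_add_eq_left_of_natDegree_lt
  omega

theorem reverse_add {h g : k[X]} {s : ℕ} (hs : 0 < s) (hg : g.natDegree + s ≤ h.natDegree) :
    ((h + g).reverse : PowerSeries k) = (h.reverse : PowerSeries k) +
      (reflect h.natDegree g : PowerSeries k) := by
  rw [← Polynomial.coe_add]
  congr 1
  unfold reverse
  rw [natDegree_add_lt hs hg, reflect_add]

theorem X_pow_dvd_reflect {n : ℕ} {g : k[X]} {s : ℕ} (hs : 0 < s) (hg : g.natDegree + s ≤ n) :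
    PowerSeries.X ^ s ∣ (reflect n g : PowerSeries k) := by
  rw [PowerSeries.X_pow_dvd_iff]
  intro j hj
  rw [coeff_coe, coeff_reflect, revAt_le (by omega)]
  exact coeff_eq_zero_of_natDegree_lt (by omega)

theorem FF_add {f h g : k[X]} (hh : h.Monic) {s : ℕ} (hs : 0 < s)
    (hg : g.natDegree + s ≤ h.natDegree) (hf : f.natDegree < 2 * s) :
    FF f (h + g) = FF f h - LL f h g := by
  unfold FF LL pr
  rw [natDegree_add_lt hs hg, reverse_add hs hg, add_sub_assoc, ← Finset.sum_sub_distrib]
  congr 1
  refine Finset.sum_congr rfl fun j hj => ?_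
  rw [coeff_ld_add _ _ s hs (cc_reverse' hh) (X_pow_dvd_reflect hs hg) j
    (by rw [Finset.mem_range] at hj; omega)]
  ring

theorem FF_add_top {f h g : k[X]} (hh : h.Monic) {s : ℕ} (hs : 0 < s)
    (hg : g.natDegree + s ≤ h.natDegree) (hf : f.natDegree = 2 * s) :
    FF f (h + g) = FF f h - LL f h g + f.coeff (2 * s) * s * (g.coeff (h.natDegree - s)) ^ 2 := by
  unfold FF LL pr
  rw [natDegree_add_lt hs hg, reverse_add hs hg, hf, Finset.sum_range_succ,
    Finset.sum_range_succ (fun j => f.coeff j * PowerSeries.coeff j _),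
    Finset.sum_range_succ (fun j => f.coeff j * (_ * _)),
    coeff_ld_add_top _ _ s hs (cc_reverse hh) (X_pow_dvd_reflect hs hg)]
  have h1 : ∀ j ∈ Finset.range (2 * s), f.coeff j * PowerSeries.coeff j
      (ld ((h.reverse : PowerSeries k) + (reflect h.natDegree g : PowerSeries k))) =
      f.coeff j * PowerSeries.coeff j (ld (h.reverse : PowerSeries k)) -
      f.coeff j * (j * PowerSeries.coeff j
        ((reflect h.natDegree g : PowerSeries k) * (h.reverse : PowerSeries k)⁻¹)) := by
    intro j hj
    rw [coeff_ld_add _ _ s hs (cc_reverse' hh) (X_pow_dvd_reflect hs hg) j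
      (by rw [Finset.mem_range] at hj; omega)]
    ring
  rw [Finset.sum_congr rfl h1, Finset.sum_sub_distrib]
  have h2 : PowerSeries.coeff s (reflect h.natDegree g : PowerSeries k) =
      g.coeff (h.natDegree - s) := by
    rw [coeff_coe, coeff_reflect, revAt_le (by omega)]
  rw [h2]
  ring

/-- the linear term as a coefficient of a product -/
theorem LL_eq {f h g : k[X]} : LL f h g = PowerSeries.coeff f.natDegree
    ((reflect f.natDegree (X * derivative f) : PowerSeries k) *
      ((reflect h.natDegree g : PowerSeries k) * (h.reverse : PowerSeries k)⁻¹)) := by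
  rw [PowerSeries.coeff_mul, Finset.Nat.sum_antidiagonal_eq_sum_range_succ_mk]
  unfold LL
  rw [← Finset.sum_range_reflect]
  refine Finset.sum_congr rfl fun i hi => ?_
  rw [Finset.mem_range] at hi
  have e1 : f.natDegree + 1 - 1 - i = f.natDegree - i := by omega
  rw [e1, coeff_coe, coeff_reflect, revAt_le (by omega), mul_comm X, ← mul_assoc]
  congr 1
  rcases Nat.eq_zero_or_pos (f.natDegree - i) with h0 | h0
  · rw [h0]
    simp
  · obtain ⟨j, hj⟩ : ∃ j, f.natDegree - i = j + 1 := ⟨f.natDegree - i - 1, by omega⟩
    rw [hj, coeff_mul_X, coeff_derivative]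
    push_cast
    ring

/-- the monic polynomial proportional to the derivative of `f` -/
noncomputable def hc (f : k[X]) : k[X] :=
  C ((f.natDegree * f.leadingCoeff)⁻¹) * derivative f

section crit

variable {f : k[X]} (hd : (f.natDegree : k) ≠ 0)

include hd

theorem nd_pos : 0 < f.natDegree := by
  rcases Nat.eq_zero_or_pos f.natDegree with h | h
  · rw [h, Nat.cast_zero] at hd
    exact absurd rfl hd
  · exact h

theorem lc_ne : f.leadingCoeff ≠ 0 := by
  rw [Ne, leadingCoeff_eq_zero]
  rintro rfl
  simp at hd

theorem coeff_top_derivative : (derivative f).coeff (f.natDegree - 1) =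
    f.natDegree * f.leadingCoeff := by
  have h := nd_pos hd
  rw [coeff_derivative, Nat.sub_add_cancel h, leadingCoeff]
  have : ((f.natDegree - 1 : ℕ) : k) + 1 = f.natDegree := by
    have := congrArg (Nat.cast : ℕ → k) (Nat.sub_add_cancel h)
    push_cast at this
    exact this
  rw [this, mul_comm]

theorem natDegree_derivative' : (derivative f).natDegree = f.natDegree - 1 := by
  apply natDegree_eq_of_le_of_coeff_ne_zero (natDegree_derivative_le f)
  rw [coeff_top_derivative hd]
  exact mul_ne_zero hd (lc_ne hd)

theorem hc_natDegree : (hc f).natDegree = f.natDegree - 1 := by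
  unfold hc
  rw [natDegree_C_mul (inv_ne_zero (mul_ne_zero hd (lc_ne hd))), natDegree_derivative' hd]

theorem hc_monic : (hc f).Monic := by
  unfold Monic leadingCoeff
  rw [hc_natDegree hd, hc, coeff_C_mul, coeff_top_derivative hd,
    inv_mul_cancel₀ (mul_ne_zero hd (lc_ne hd))]

theorem derivative_eq : derivative f = C (f.natDegree * f.leadingCoeff) * hc f := by
  unfold hc
  rw [← mul_assoc, ← C_mul, mul_inv_cancel₀ (mul_ne_zero hd (lc_ne hd)), C_1, one_mul]

/-- the series of the derivative -/
theorem reflect_eq : reflect f.natDegree (X * derivative f) =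
    C (f.natDegree * f.leadingCoeff) * (hc f).reverse := by
  have h := nd_pos hd
  conv_lhs => rw [derivative_eq hd]
  have hX : ∀ (P : k[X]) (d : ℕ), (P * X).coeff d = if 1 ≤ d then P.coeff (d - 1) else 0 := by
    intro P d
    have := coeff_mul_X_pow' P 1 d
    rwa [pow_one] at this
  ext i
  rw [coeff_reflect, coeff_C_mul, coeff_reverse, hc_natDegree hd, mul_comm X, hX, coeff_C_mul]
  by_cases h1 : i ≤ f.natDegree - 1
  · rw [revAt_le (by omega), revAt_le h1, if_pos (by omega)]
    congr 2
    omega
  · rw [revAt_eq_self_of_lt (by omega : f.natDegree - 1 < i)]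
    have h2 : (hc f).coeff i = 0 := coeff_eq_zero_of_natDegree_lt (by rw [hc_natDegree hd]; omega)
    rw [h2, mul_zero]
    by_cases h3 : i ≤ f.natDegree
    · rw [revAt_le h3, if_neg (by omega)]
    · rw [revAt_eq_self_of_lt (by omega), if_pos (by omega)]
      have h4 : (hc f).coeff (i - 1) = 0 :=
        coeff_eq_zero_of_natDegree_lt (by rw [hc_natDegree hd]; omega)
      rw [h4, mul_zero]

/-- the linear term vanishes at the critical polynomial -/
theorem LL_hc (g : k[X]) (hg : g.natDegree < f.natDegree - 1) : LL f (hc f) g = 0 := by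
  rw [LL_eq, reflect_eq hd, Polynomial.coe_mul, Polynomial.coe_C]
  have h1 := PowerSeries.mul_inv_cancel ((hc f).reverse : PowerSeries k) (cc_reverse' (hc_monic hd))
  have h2 : PowerSeries.C (f.natDegree * f.leadingCoeff : k) * ((hc f).reverse : PowerSeries k) *
      ((reflect (hc f).natDegree g : PowerSeries k) * ((hc f).reverse : PowerSeries k)⁻¹) =
      PowerSeries.C (f.natDegree * f.leadingCoeff : k) *
        (reflect (hc f).natDegree g : PowerSeries k) := by
    linear_combination (PowerSeries.C (f.natDegree * f.leadingCoeff : k) *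
      (reflect (hc f).natDegree g : PowerSeries k)) * h1
  rw [h2, PowerSeries.coeff_C_mul, coeff_coe, coeff_reflect, hc_natDegree hd,
    revAt_eq_self_of_lt (by have := nd_pos hd; omega),
    coeff_eq_zero_of_natDegree_lt (by omega : g.natDegree < f.natDegree), mul_zero]

/-- if the linear term vanishes on the polynomials of degree less than `m`, then `h` and the critical
polynomial have the same upper coefficients -/
theorem LL_zero {h : k[X]} (hh : h.Monic) (hn : h.natDegree = f.natDegree - 1) {m : ℕ}
    (hm : m ≤ f.natDegree - 1)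
    (hL : ∀ g : k[X], g.degree < m → LL f h g = 0) :
    (h - hc f).degree < (f.natDegree - 1 - m : ℕ) := by
  have hpos := nd_pos hd
  set a : PowerSeries k := (h.reverse : PowerSeries k) with ha
  set D : k := f.natDegree * f.leadingCoeff with hD
  have hD0 : D ≠ 0 := mul_ne_zero hd (lc_ne hd)
  set φ : PowerSeries k := (reflect f.natDegree (X * derivative f) : PowerSeries k) with hφ
  have hφ2 : φ = PowerSeries.C D * ((hc f).reverse : PowerSeries k) := by
    rw [hφ, reflect_eq hd, Polynomial.coe_mul, Polynomial.coe_C]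
  have h1 : ∀ i < m, PowerSeries.coeff (i + 1) (φ * a⁻¹) = 0 := by
    intro i hi
    have h2 := hL (X ^ i) (by
      rw [degree_X_pow]
      exact_mod_cast hi)
    rw [LL_eq, reflect_monomial, revAt_le (by omega), Polynomial.coe_pow, Polynomial.coe_X] at h2
    have h3 : φ * (PowerSeries.X ^ (h.natDegree - i) * a⁻¹) =
        PowerSeries.X ^ (h.natDegree - i) * (φ * a⁻¹) := by ring
    rw [h3, PowerSeries.coeff_X_pow_mul', if_pos (by omega)] at h2
    have h4 : f.natDegree - (h.natDegree - i) = i + 1 := by omega
    rw [h4] at h2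
    exact h2
  have hca : PowerSeries.constantCoeff a = 1 := cc_reverse hh
  have hainv : a * a⁻¹ = 1 := PowerSeries.mul_inv_cancel a (cc_reverse' hh)
  have hcφ : PowerSeries.constantCoeff φ = D := by
    rw [hφ2, map_mul, PowerSeries.constantCoeff_C, cc_reverse (hc_monic hd), mul_one]
  have h5 : PowerSeries.X ^ (m + 1) ∣ φ * a⁻¹ - PowerSeries.C D := by
    rw [PowerSeries.X_pow_dvd_iff]
    intro j hj
    rw [map_sub, PowerSeries.coeff_C]
    rcases j with _ | j
    · rw [if_pos rfl, PowerSeries.coeff_zero_eq_constantCoeff_apply, map_mul, hcφ]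
      have := congrArg PowerSeries.constantCoeff hainv
      rw [map_mul, hca, one_mul, map_one] at this
      rw [this, mul_one, sub_self]
    · rw [if_neg (by omega), h1 j (by omega), sub_zero]
  have h6 : PowerSeries.X ^ (m + 1) ∣ PowerSeries.C D * ((hc f).reverse : PowerSeries k) -
      PowerSeries.C D * a := by
    obtain ⟨w, hw⟩ := h5
    refine ⟨w * a, ?_⟩
    rw [← hφ2]
    linear_combination a * hw - φ * hainv
  rw [degree_lt_iff_coeff_zero]
  intro i hi
  rw [coeff_sub]
  by_cases hi2 : i ≤ f.natDegree - 1
  · have h7 := (PowerSeries.X_pow_dvd_iff.1 h6) (f.natDegree - 1 - i) (by omega)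
    rw [map_sub, PowerSeries.coeff_C_mul, PowerSeries.coeff_C_mul, ← mul_sub, ha, coeff_coe,
      coeff_coe, coeff_reverse, coeff_reverse, hc_natDegree hd, hn,
      revAt_le (by omega)] at h7
    have h8 : f.natDegree - 1 - (f.natDegree - 1 - i) = i := by omega
    rw [h8] at h7
    rcases mul_eq_zero.1 h7 with h9 | h9
    · exact absurd h9 hD0
    · rw [← neg_sub, h9, neg_zero]
  · rw [coeff_eq_zero_of_natDegree_lt (by omega),
      coeff_eq_zero_of_natDegree_lt (by rw [hc_natDegree hd]; omega), sub_zero]

/-- the converse -/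
theorem LL_zero' {g g' : k[X]} {s t : ℕ} (hs : 0 < s) (ht : 0 < t)
    (hg : g.natDegree + s ≤ f.natDegree - 1) (hg' : g'.natDegree + t ≤ f.natDegree - 1)
    (hst : f.natDegree < s + t) : LL f (hc f + g) g' = 0 := by
  have hpos := nd_pos hd
  have hnd : (hc f + g).natDegree = f.natDegree - 1 := by
    rw [natDegree_add_lt hs (by rw [hc_natDegree hd]; exact hg), hc_natDegree hd]
  have hmon : (hc f + g).Monic := by
    apply (hc_monic hd).add_of_left
    apply degree_lt_degree
    rw [hc_natDegree hd]
    omega
  rw [LL_eq, reflect_eq hd, Polynomial.coe_mul, Polynomial.coe_C, hnd]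
  set D : k := f.natDegree * f.leadingCoeff with hD
  set a : PowerSeries k := ((hc f + g).reverse : PowerSeries k) with ha
  have h1 : ((hc f).reverse : PowerSeries k) = a - (reflect (f.natDegree - 1) g : PowerSeries k) := by
    rw [ha, reverse_add hs (by rw [hc_natDegree hd]; exact hg), hc_natDegree hd]
    ring
  obtain ⟨b, hb⟩ := X_pow_dvd_reflect hs hg
  obtain ⟨b', hb'⟩ := X_pow_dvd_reflect ht hg'
  have hainv : a * a⁻¹ = 1 := PowerSeries.mul_inv_cancel a (cc_reverse' hmon)
  have h2 : PowerSeries.C D * ((hc f).reverse : PowerSeries k) *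
      ((reflect (f.natDegree - 1) g' : PowerSeries k) * a⁻¹) =
      PowerSeries.C D * (reflect (f.natDegree - 1) g' : PowerSeries k) -
      PowerSeries.X ^ (s + t) * (PowerSeries.C D * b * b' * a⁻¹) := by
    rw [h1, hb, hb']
    linear_combination (PowerSeries.C D * (PowerSeries.X ^ t * b')) * hainv
  rw [h2, map_sub, PowerSeries.coeff_X_pow_mul', if_neg (by omega), sub_zero,
    PowerSeries.coeff_C_mul, coeff_coe, coeff_reflect,
    revAt_eq_self_of_lt (by omega),
    coeff_eq_zero_of_natDegree_lt (by omega : g'.natDegree < f.natDegree), mul_zero]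

end crit

end Pool.Agent.H856.WC
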