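import Mathlib

/-! # Power sums of the roots of a monic polynomial and their variation -/

set_option autoImplicit false
set_option linter.all false

open Polynomial

namespace Pool.Agent.H856.WC

section ser

variable {k : Type*} [Field k]

/-- the Euler operator -/
noncomputable def eu (φ : PowerSeries k) : PowerSeries k :=
  PowerSeries.X * PowerSeries.derivative k φ

theorem coeff_eu (φ : PowerSeries k) (n : ℕ) :
    PowerSeries.coeff n (eu φ) = n * PowerSeries.coeff n φ := by
  unfold eu
  cases n with
  | zero => simp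
  | succ n =>
    rw [PowerSeries.coeff_succ_X_mul, PowerSeries.coeff_derivative]
    push_cast
    ring

theorem eu_mul (a b : PowerSeries k) : eu (a * b) = a * eu b + b * eu a := by
  unfold eu
  rw [Derivation.leibniz]
  simp only [smul_eq_mul]
  ring

theorem eu_add (a b : PowerSeries k) : eu (a + b) = eu a + eu b := by
  unfold eu
  rw [map_add, mul_add]

theorem eu_one : eu (1 : PowerSeries k) = 0 := by
  ext n
  rw [coeff_eu, PowerSeries.coeff_one]
  split_ifs with h
  · simp [h]
  · simp

/-- minus the logarithmic derivative -/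
noncomputable def ld (a : PowerSeries k) : PowerSeries k := -(eu a * a⁻¹)

theorem ld_mul_self (a : PowerSeries k) (ha : PowerSeries.constantCoeff a ≠ 0) :
    ld a * a = -eu a := by
  unfold ld
  have h := PowerSeries.mul_inv_cancel a ha
  linear_combination -(eu a) * h

theorem ld_mul (a b : PowerSeries k) (ha : PowerSeries.constantCoeff a ≠ 0)
    (hb : PowerSeries.constantCoeff b ≠ 0) : ld (a * b) = ld a + ld b := by
  unfold ld
  rw [eu_mul, PowerSeries.mul_inv_rev]
  have h1 := PowerSeries.mul_inv_cancel a ha
  have h2 := PowerSeries.mul_inv_cancel b hb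
  linear_combination -(eu b * b⁻¹) * h1 - (eu a * a⁻¹) * h2

theorem ld_one : ld (1 : PowerSeries k) = 0 := by
  unfold ld
  rw [eu_one, zero_mul, neg_zero]

theorem eu_map {K : Type*} [Field K] (φ : k →+* K) (a : PowerSeries k) :
    eu (PowerSeries.map φ a) = PowerSeries.map φ (eu a) := by
  ext n
  rw [coeff_eu, PowerSeries.coeff_map, PowerSeries.coeff_map, coeff_eu, map_mul, map_natCast]

theorem ld_map {K : Type*} [Field K] (φ : k →+* K) (a : PowerSeries k)
    (ha : PowerSeries.constantCoeff a ≠ 0) :
    ld (PowerSeries.map φ a) = PowerSeries.map φ (ld a) := by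
  have h0 : PowerSeries.constantCoeff (PowerSeries.map φ a) ≠ 0 := by
    rw [← PowerSeries.coeff_zero_eq_constantCoeff_apply, PowerSeries.coeff_map,
      PowerSeries.coeff_zero_eq_constantCoeff_apply]
    exact (_root_.map_ne_zero φ).2 ha
  have h1 : PowerSeries.map φ a ≠ 0 := by
    intro h
    rw [h, map_zero] at h0
    exact h0 rfl
  apply mul_right_cancel₀ h1
  rw [ld_mul_self _ h0, ← map_mul, ld_mul_self _ ha, eu_map, map_neg]

/-- the variation of the logarithmic derivative -/
theorem ld_add (a b : PowerSeries k) (s : ℕ) (hs : 0 < s)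
    (ha : PowerSeries.constantCoeff a ≠ 0) (hb : PowerSeries.X ^ s ∣ b) :
    ∃ v w : PowerSeries k, b * a⁻¹ = PowerSeries.X ^ s * v ∧ PowerSeries.constantCoeff w = 1 ∧
      ld (a + b) = ld a - eu (b * a⁻¹) +
        PowerSeries.X ^ (2 * s) * (v * (PowerSeries.C (s : k) * v + eu v) * w) := by
  obtain ⟨b', rfl⟩ := hb
  set v := b' * a⁻¹ with hv
  set u := PowerSeries.X ^ s * v with hu
  have hub : PowerSeries.X ^ s * b' * a⁻¹ = u := by rw [hu, hv]; ring
  have hu0 : PowerSeries.constantCoeff u = 0 := by
    rw [hu, map_mul, map_pow, PowerSeries.constantCoeff_X, zero_pow hs.ne', zero_mul]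
  have h1u : PowerSeries.constantCoeff (1 + u) ≠ 0 := by
    rw [map_add, hu0, map_one, add_zero]
    exact one_ne_zero
  have hinv := PowerSeries.mul_inv_cancel (1 + u) h1u
  have hainv := PowerSeries.mul_inv_cancel a ha
  refine ⟨v, (1 + u)⁻¹, hub, ?_, ?_⟩
  · have := congrArg PowerSeries.constantCoeff hinv
    rw [map_mul, map_add, hu0, map_one, add_zero, one_mul] at this
    exact this
  · have e1 : a + PowerSeries.X ^ s * b' = a * (1 + u) := by
      rw [← hub]
      linear_combination -(PowerSeries.X ^ s * b') * hainv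
    have e2 : eu (PowerSeries.X ^ s * v) =
        PowerSeries.X ^ s * (PowerSeries.C (s : k) * v + eu v) := by
      have : eu (PowerSeries.X ^ s : PowerSeries k) = PowerSeries.C (s : k) * PowerSeries.X ^ s := by
        ext n
        rw [coeff_eu, PowerSeries.coeff_C_mul, PowerSeries.coeff_X_pow]
        split_ifs with h
        · rw [h]
        · simp
      rw [eu_mul, this]
      ring
    rw [hub, e1, ld_mul _ _ ha h1u]
    have e3 : ld (1 + u) = - (eu u * (1 + u)⁻¹) := by
      unfold ld
      rw [eu_add, eu_one, zero_add]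
    rw [e3]
    have e4 : eu u = PowerSeries.X ^ s * (PowerSeries.C (s : k) * v + eu v) := e2
    have e5 : PowerSeries.X ^ (2 * s) * (v * (PowerSeries.C (s : k) * v + eu v) * (1 + u)⁻¹) =
        u * eu u * (1 + u)⁻¹ := by
      rw [e4, hu]
      ring
    rw [e5]
    linear_combination -(eu u) * hinv

theorem coeff_ld_add (a b : PowerSeries k) (s : ℕ) (hs : 0 < s)
    (ha : PowerSeries.constantCoeff a ≠ 0) (hb : PowerSeries.X ^ s ∣ b) (j : ℕ) (hj : j < 2 * s) :
    PowerSeries.coeff j (ld (a + b)) = PowerSeries.coeff j (ld a) -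
      j * PowerSeries.coeff j (b * a⁻¹) := by
  obtain ⟨v, w, h1, h2, h3⟩ := ld_add a b s hs ha hb
  rw [h3, map_add, map_sub, coeff_eu, PowerSeries.coeff_X_pow_mul', if_neg (by omega), add_zero]

theorem coeff_ld_add_top (a b : PowerSeries k) (s : ℕ) (hs : 0 < s)
    (ha : PowerSeries.constantCoeff a = 1) (hb : PowerSeries.X ^ s ∣ b) :
    PowerSeries.coeff (2 * s) (ld (a + b)) = PowerSeries.coeff (2 * s) (ld a) -
      (2 * s : ℕ) * PowerSeries.coeff (2 * s) (b * a⁻¹) +
      s * (PowerSeries.coeff s b) ^ 2 := by
  obtain ⟨v, w, h1, h2, h3⟩ := ld_add a b s hs (by rw [ha]; exact one_ne_zero) hb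
  have hv : PowerSeries.constantCoeff v = PowerSeries.coeff s b := by
    have e1 : b = PowerSeries.X ^ s * (v * a) := by
      have := PowerSeries.mul_inv_cancel a (by rw [ha]; exact one_ne_zero)
      linear_combination -b * this + a * h1
    rw [e1, PowerSeries.coeff_X_pow_mul', if_pos le_rfl, Nat.sub_self,
      PowerSeries.coeff_zero_eq_constantCoeff_apply, map_mul, ha, mul_one]
  have hev : PowerSeries.constantCoeff (eu v) = 0 := by
    rw [← PowerSeries.coeff_zero_eq_constantCoeff_apply, coeff_eu]
    simp
  have h4 : PowerSeries.constantCoeff (v * (PowerSeries.C (s : k) * v + eu v) * w) =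
      s * (PowerSeries.coeff s b) ^ 2 := by
    simp only [map_mul, map_add, h2, hv, hev, PowerSeries.constantCoeff_C]
    ring
  rw [h3, map_add, map_sub, coeff_eu, PowerSeries.coeff_X_pow_mul', if_pos le_rfl, Nat.sub_self,
    PowerSeries.coeff_zero_eq_constantCoeff_apply, h4]

end ser

section poly

variable {k : Type*} [Field k]

/-- the pairing of a polynomial and a series -/
noncomputable def pr (f : k[X]) (φ : PowerSeries k) : k :=
  ∑ j ∈ Finset.range (f.natDegree + 1), f.coeff j * PowerSeries.coeff j φ

theorem pr_add (f : k[X]) (φ χ : PowerSeries k) : pr f (φ + χ) = pr f φ + pr f χ := by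
  unfold pr
  rw [← Finset.sum_add_distrib]
  refine Finset.sum_congr rfl fun j _ => ?_
  rw [map_add]
  ring

/-- the sum of the values of `f` at the roots of `h` -/
noncomputable def FF (f h : k[X]) : k :=
  h.natDegree * f.coeff 0 + pr f (ld (h.reverse : PowerSeries k))

theorem cc_reverse {h : k[X]} (hh : h.Monic) :
    PowerSeries.constantCoeff (h.reverse : PowerSeries k) = 1 := by
  rw [← PowerSeries.coeff_zero_eq_constantCoeff_apply, coeff_coe, coeff_zero_reverse, hh]

theorem cc_reverse' {h : k[X]} (hh : h.Monic) :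
    PowerSeries.constantCoeff (h.reverse : PowerSeries k) ≠ 0 := by
  rw [cc_reverse hh]
  exact one_ne_zero

theorem FF_one (f : k[X]) : FF f 1 = 0 := by
  unfold FF
  have h1 : ((1 : k[X]).reverse : PowerSeries k) = 1 := by
    rw [show (1 : k[X]) = C 1 by simp, reverse_C]
    simp
  rw [h1, ld_one, natDegree_one]
  unfold pr
  simp

theorem FF_mul (f : k[X]) {g h : k[X]} (hg : g.Monic) (hh : h.Monic) :
    FF f (g * h) = FF f g + FF f h := by
  unfold FF
  rw [reverse_mul_of_domain, Polynomial.coe_mul, ld_mul _ _ (cc_reverse' hg) (cc_reverse' hh),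
    pr_add, hg.natDegree_mul hh]
  push_cast
  ring

theorem FF_X_sub_C (f : k[X]) (x : k) : FF f (X - C x) = f.eval x := by
  unfold FF
  have h1 : ((X - C x : k[X]).reverse : PowerSeries k) = 1 - PowerSeries.C x * PowerSeries.X := by
    ext n
    rw [coeff_coe, coeff_reverse, natDegree_X_sub_C]
    rcases n with _ | _ | n
    · simp
    · rw [revAt_le (by omega)]
      simp
    · have h2 : revAt 1 (n + 1 + 1) = n + 1 + 1 := revAt_eq_self_of_lt (by omega)
      rw [h2, coeff_sub, coeff_X, if_neg (by omega), coeff_C, if_neg (by omega), map_sub,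
        PowerSeries.coeff_one, if_neg (by omega), PowerSeries.coeff_C_mul, PowerSeries.coeff_X,
        if_neg (by omega), mul_zero]
  have h2 : ld (1 - PowerSeries.C x * PowerSeries.X) =
      PowerSeries.mk (fun j => if j = 0 then 0 else x ^ j) := by
    have h3 : PowerSeries.constantCoeff (1 - PowerSeries.C x * PowerSeries.X : PowerSeries k) ≠ 0 := by
      simp
    have h4 : (1 - PowerSeries.C x * PowerSeries.X : PowerSeries k) ≠ 0 := by
      intro h
      rw [h, map_zero] at h3
      exact h3 rfl
    apply mul_right_cancel₀ h4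
    rw [ld_mul_self _ h3]
    ext n
    rw [map_neg, coeff_eu, mul_sub, mul_one, map_sub, map_sub, PowerSeries.coeff_mk]
    rcases n with _ | n
    · simp
    · have h5 : PowerSeries.coeff (n + 1) (PowerSeries.mk (fun j => if j = 0 then 0 else x ^ j) *
          (PowerSeries.C x * PowerSeries.X)) = (if n = 0 then 0 else x ^ n) * x := by
        rw [← mul_assoc, PowerSeries.coeff_succ_mul_X, PowerSeries.coeff_mul_C,
          PowerSeries.coeff_mk]
      rw [h5, PowerSeries.coeff_one, if_neg (by omega), PowerSeries.coeff_C_mul,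
        PowerSeries.coeff_X, if_neg (by omega : ¬ n + 1 = 0)]
      rcases n with _ | n
      · simp
      · rw [if_neg (by omega), if_neg (by omega)]
        ring
  rw [h1, h2, natDegree_X_sub_C]
  unfold pr
  rw [eval_eq_sum_range, Finset.sum_range_succ', Finset.sum_range_succ']
  simp only [PowerSeries.coeff_mk]
  rw [Finset.sum_congr rfl fun j _ => by rw [if_neg (Nat.succ_ne_zero j)]]
  simp
  ring

theorem FF_prod (f : k[X]) (s : Multiset k) :
    FF f (s.map fun x => X - C x).prod = (s.map fun x => f.eval x).sum := by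
  induction s using Multiset.induction_on with
  | empty => simp [FF_one]
  | cons a s ih =>
    rw [Multiset.map_cons, Multiset.prod_cons, Multiset.map_cons, Multiset.sum_cons,
      FF_mul f (monic_X_sub_C a) (monic_multiset_prod_of_monic _ _ fun x _ => monic_X_sub_C x), ih,
      FF_X_sub_C]

theorem FF_map {K : Type*} [Field K] (φ : k →+* K) (f : k[X]) {h : k[X]} (hh : h.Monic) :
    FF (f.map φ) (h.map φ) = φ (FF f h) := by
  unfold FF
  have h1 : ((h.map φ).reverse : PowerSeries K) = PowerSeries.map φ (h.reverse : PowerSeries k) := by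
    ext n
    rw [coeff_coe, PowerSeries.coeff_map, coeff_coe, coeff_reverse, coeff_reverse,
      hh.natDegree_map, coeff_map]
  rw [h1, ld_map φ _ (cc_reverse' hh), hh.natDegree_map, coeff_map, map_add, map_mul, map_natCast]
  congr 1
  unfold pr
  rw [map_sum, natDegree_map]
  refine Finset.sum_congr rfl fun j _ => ?_
  rw [coeff_map, PowerSeries.coeff_map, map_mul]

/-- `FF f h` is the sum of the values of `f` at the roots of `h` -/
theorem FF_eq_sum {K : Type*} [Field K] [Algebra k K] (f : k[X]) {h : k[X]} (hh : h.Monic)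
    (hs : (h.map (algebraMap k K)).Splits) :
    algebraMap k K (FF f h) = ((h.aroots K).map fun x => aeval x f).sum := by
  rw [← FF_map (algebraMap k K) f hh]
  have h1 := hs.eq_prod_roots_of_monic (hh.map _)
  conv_lhs => rw [h1]
  rw [FF_prod]
  simp only [eval_map_algebraMap]

end poly

end Pool.Agent.H856.WC
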