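import Mathlib

set_option autoImplicit false

open Polynomial

namespace Pool.Agent.H856.WC

/-- WEIL: the number of points of the Artin-Schreier curve `y ^ p - y = f (x)` -/
def S_WEIL : Prop :=
  ∀ (p : ℕ) [Fact p.Prime] (k : Type) [Field k] [Finite k] [CharP k p] (f : k[X]),
    0 < f.natDegree → ¬ p ∣ f.natDegree →
    ∃ C : ℝ, ∀ (E : Type) [Field E] [Finite E] [Algebra k E],
      |(Nat.card {z : E × E // z.2 ^ p - z.2 = aeval z.1 f} : ℝ) - Nat.card E| ≤
        C * √(Nat.card E : ℝ)

end Pool.Agent.H856.WC
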