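import Pool.Agent.H856.WC.Mon

/-! # The top coefficient of the L-function of `ψ (f (x))` -/

set_option autoImplicit false
set_option linter.all false
set_option linter.unusedSectionVars false

open Polynomial

namespace Pool.Agent.H856.WC

open Pool.Agent.H341R2.Sharp Pool.Agent.H498R2.Kl

section val

variable {k : Type*} [Field k]

theorem LL_zero_right (f h : k[X]) : LL f h 0 = 0 := by
  have := LL_C_mul f h 0 0
  simpa using this

/-- the values near the critical polynomial, even case -/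
theorem FF_hc_even {f : k[X]} (hd : (f.natDegree : k) ≠ 0) {m : ℕ} (hm : f.natDegree = 2 * m + 1)
    {g : k[X]} (hg : g.degree < m) : FF f (hc f + g) = FF f (hc f) := by
  rcases eq_or_ne g 0 with rfl | h0
  · rw [add_zero]
  have hg2 : g.natDegree < m := by
    rw [degree_eq_natDegree h0] at hg
    exact_mod_cast hg
  rw [FF_add (hc_monic hd) (s := m + 1) (by omega) (by rw [hc_natDegree hd]; omega) (by omega),
    LL_hc hd g (by omega), sub_zero]

/-- the values near the critical polynomial, odd case -/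
theorem FF_hc_odd {f : k[X]} (hd : (f.natDegree : k) ≠ 0) {m : ℕ} (hm : f.natDegree = 2 * m + 2)
    {g : k[X]} (hg : g.degree < (m + 1 : ℕ)) :
    FF f (hc f + g) = FF f (hc f) + f.leadingCoeff * (m + 1) * (g.coeff m) ^ 2 := by
  have hg2 : g.natDegree < m + 1 := by
    rcases eq_or_ne g 0 with rfl | h0
    · simp
    · rw [degree_eq_natDegree h0] at hg
      exact_mod_cast hg
  rw [FF_add_top (hc_monic hd) (s := m + 1) (by omega) (by rw [hc_natDegree hd]; omega) (by omega),
    LL_hc hd g (by omega), sub_zero, hc_natDegree hd, leadingCoeff, hm]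
  have e1 : 2 * m + 2 - 1 - (m + 1) = m := by omega
  rw [e1]
  push_cast
  ring_nf

end val

section

variable {k : Type} [Field k] [Fintype k] [DecidableEq k]

theorem AG_even {ψ : AddChar k ℂ} (hψ : ψ ≠ 1) {f : k[X]} (hd : (f.natDegree : k) ≠ 0) {m : ℕ}
    (hm : f.natDegree = 2 * m + 1) :
    AG (lam ψ f) (2 * m) = (Fintype.card k : ℂ) ^ m * ψ (FF f (hc f)) := by
  have h := AG_top_aux hψ hd m (Or.inl (by omega))
  have e1 : f.natDegree - 1 = 2 * m := by omega
  have e2 : f.natDegree - 1 - m = m := by omega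
  rw [e2] at h
  rw [e1] at h
  rw [h]
  have h1 : ∀ g : degreeLT k m, lam ψ f (hc f + g) = ψ (FF f (hc f)) := by
    intro g
    unfold lam
    rw [FF_hc_even hd hm (mem_degreeLT.1 g.2)]
  rw [Finset.sum_congr rfl fun g _ => h1 g, Finset.sum_const, Finset.card_univ, card_degreeLT,
    nsmul_eq_mul]
  push_cast
  rfl

theorem sum_degreeLT (m : ℕ) (G : k → ℂ) :
    ∑ g : degreeLT k (m + 1), G ((g : k[X]).coeff m) =
      (Fintype.card k : ℂ) ^ m * ∑ t, G t := by
  have h1 : ∑ g : degreeLT k (m + 1), G ((g : k[X]).coeff m) =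
      ∑ v : Fin (m + 1) → k, G (v (Fin.last m)) := by
    refine Fintype.sum_equiv (degreeLTEquiv k (m + 1)).toEquiv _ _ fun g => ?_
    rfl
  rw [h1]
  have h2 : ∑ v : Fin (m + 1) → k, G (v (Fin.last m)) =
      ∑ w : k × (Fin m → k), G w.1 := by
    symm
    refine Fintype.sum_equiv (Fin.snocEquiv (fun _ : Fin (m + 1) => k)) _ _ fun w => ?_
    congr 1
    simp [Fin.snocEquiv]
  rw [h2, Fintype.sum_prod_type, Finset.mul_sum]
  refine Finset.sum_congr rfl fun t _ => ?_
  simp

theorem AG_odd {ψ : AddChar k ℂ} (hψ : ψ ≠ 1) {f : k[X]} (hd : (f.natDegree : k) ≠ 0) {m : ℕ}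
    (hm : f.natDegree = 2 * m + 2) :
    AG (lam ψ f) (2 * m + 1) = (Fintype.card k : ℂ) ^ m * (ψ (FF f (hc f)) *
      ∑ t, ψ (f.leadingCoeff * (m + 1) * t ^ 2)) := by
  have h := AG_top_aux hψ hd m (Or.inr (by omega))
  have e1 : f.natDegree - 1 = 2 * m + 1 := by omega
  have e2 : f.natDegree - 1 - m = m + 1 := by omega
  rw [e2] at h
  rw [e1] at h
  rw [h]
  have h1 : ∀ g : degreeLT k (m + 1), lam ψ f (hc f + g) =
      (fun t => ψ (FF f (hc f)) * ψ (f.leadingCoeff * (m + 1) * t ^ 2)) ((g : k[X]).coeff m) := by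
    intro g
    unfold lam
    rw [FF_hc_odd hd hm (mem_degreeLT.1 g.2), AddChar.map_add_eq_mul]
  rw [Finset.sum_congr rfl fun g _ => h1 g,
    sum_degreeLT m (fun t => ψ (FF f (hc f)) * ψ (f.leadingCoeff * (m + 1) * t ^ 2)),
    ← Finset.mul_sum]

/-- the absolute value of a quadratic Gauss sum -/
theorem normSq_gauss {ψ : AddChar k ℂ} (hψ : ψ ≠ 1) {α : k} (hα : 2 * α ≠ 0) :
    ‖∑ t, ψ (α * t ^ 2)‖ ^ 2 = Fintype.card k := by
  obtain ⟨t0, ht0⟩ := AddChar.ne_one_iff.1 hψ
  have h1 : (‖∑ t, ψ (α * t ^ 2)‖ ^ 2 : ℂ) = (Fintype.card k : ℂ) := by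
    rw [← Complex.conj_mul', map_sum, Finset.sum_mul_sum]
    have e1 : ∀ s t : k, (starRingEnd ℂ) (ψ (α * s ^ 2)) * ψ (α * t ^ 2) =
        ψ (α * t ^ 2 - α * s ^ 2) := by
      intro s t
      rw [← AddChar.map_neg_eq_conj, ← AddChar.map_add_eq_mul]
      congr 1
      ring
    simp_rw [e1]
    have e2 : ∀ s : k, ∑ t, ψ (α * t ^ 2 - α * s ^ 2) = ∑ u, ψ (α * u ^ 2) * ψ (2 * α * u * s) := by
      intro s
      refine Fintype.sum_equiv (Equiv.subRight s) _ _ fun t => ?_
      rw [← AddChar.map_add_eq_mul]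
      congr 1
      simp only [Equiv.subRight_apply]
      ring
    rw [Finset.sum_congr rfl fun s _ => e2 s, Finset.sum_comm]
    have e3 : ∀ u : k, ∑ s, ψ (α * u ^ 2) * ψ (2 * α * u * s) =
        if u = 0 then (Fintype.card k : ℂ) else 0 := by
      intro u
      rw [← Finset.mul_sum]
      split_ifs with hu
      · rw [hu]
        simp
      · have hne : 2 * α * u ≠ 0 := mul_ne_zero hα hu
        have : ∑ s, ψ (2 * α * u * s) = ∑ s, ψ s :=
          Fintype.sum_equiv (Equiv.mulLeft₀ _ hne) _ _ fun s => rfl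
        rw [this, AddChar.sum_eq_zero_of_ne_one hψ, mul_zero]
    rw [Finset.sum_congr rfl fun u _ => e3 u, Finset.sum_ite_eq' Finset.univ (0 : k),
      if_pos (Finset.mem_univ _)]
  exact_mod_cast h1

theorem norm_psi (ψ : AddChar k ℂ) (x : k) : ‖ψ x‖ = 1 := AddChar.norm_apply ψ x

/-- the absolute value of the top coefficient -/
theorem normSq_AG {ψ : AddChar k ℂ} (hψ : ψ ≠ 1) {f : k[X]} (hd : (f.natDegree : k) ≠ 0) :
    ‖AG (lam ψ f) (f.natDegree - 1)‖ ^ 2 = (Fintype.card k : ℝ) ^ (f.natDegree - 1) := by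
  have hpos := nd_pos hd
  obtain ⟨m, hm | hm⟩ : ∃ m, f.natDegree = 2 * m + 1 ∨ f.natDegree = 2 * m + 2 :=
    ⟨(f.natDegree - 1) / 2, by omega⟩
  · have e1 : f.natDegree - 1 = 2 * m := by omega
    rw [e1, AG_even hψ hd hm, norm_mul, norm_psi, mul_one, norm_pow, Complex.norm_natCast,
      ← pow_mul, mul_comm m]
  · have e1 : f.natDegree - 1 = 2 * m + 1 := by omega
    have h2 : 2 * (f.leadingCoeff * (m + 1)) ≠ 0 := by
      have h3 : (2 : k) * (f.leadingCoeff * (m + 1)) = f.natDegree * f.leadingCoeff := by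
        rw [hm]
        push_cast
        ring
      rw [h3]
      exact mul_ne_zero hd (lc_ne hd)
    rw [e1, AG_odd hψ hd hm, norm_mul, norm_mul, norm_psi, one_mul, norm_pow,
      Complex.norm_natCast, mul_pow, normSq_gauss hψ h2, ← pow_mul, mul_comm m, pow_succ]

end

end Pool.Agent.H856.WC
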