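import Pool.Agent.H856.WC.Stm2
import Pool.Graph.R_seed8.W290.WA.Irr0
import Pool.Graph.R_seed8.R410.PW.Weil

set_option autoImplicit false

open Polynomial

namespace Pool.Agent.H856.WC

/-- the Artin-Schreier polynomial is absolutely irreducible -/
theorem as_irr (p : ℕ) [hp : Fact p.Prime] (K : Type) [Field K] [CharP K p] (F : K[X])
    (h0 : 0 < F.natDegree) (hnd : ¬ p ∣ F.natDegree) :
    Irreducible (X ^ p - X - C F : K[X][X]) := by
  have hp1 : 1 < p := hp.out.one_lt
  have hgm : (X ^ p - X - C F : K[X][X]).Monic := by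
    have h1 : (X ^ p - X - C F : K[X][X]) = X ^ p - (X + C F) := by ring
    rw [h1]
    apply monic_X_pow_sub
    rw [degree_X_add_C]
    exact_mod_cast hp1
  rw [hgm.irreducible_iff_irreducible_map_fraction_map (K := RatFunc K)]
  have : CharP (RatFunc K) p :=
    charP_of_injective_algebraMap (algebraMap K (RatFunc K)).injective p
  have h2 : (X ^ p - X - C F : K[X][X]).map (algebraMap K[X] (RatFunc K)) =
      X ^ p - X - C (algebraMap K[X] (RatFunc K) F) := by
    simp
  rw [h2]
  apply Pool.Agent.W290.WA.irr
  intro b hb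
  have hint : IsIntegral K[X] b := by
    refine ⟨X ^ p - X - C F, hgm, ?_⟩
    rw [← eval_map, h2]
    simp only [eval_sub, eval_pow, eval_X, eval_C]
    rw [hb, sub_self]
  obtain ⟨h, rfl⟩ := IsIntegrallyClosed.algebraMap_eq_of_integral hint
  rw [← map_pow, ← map_sub] at hb
  have h3 : h ^ p - h = F := IsFractionRing.injective K[X] (RatFunc K) hb
  rcases Nat.eq_zero_or_pos h.natDegree with h4 | h4
  · rw [eq_C_of_natDegree_eq_zero h4, ← C_pow, ← C_sub] at h3
    rw [← h3, natDegree_C] at h0
    exact lt_irrefl _ h0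
  · have h5 : (h ^ p - h).natDegree = p * h.natDegree := by
      rw [natDegree_sub_eq_left_of_natDegree_lt]
      · exact natDegree_pow h p
      · rw [natDegree_pow]
        nlinarith
    rw [h3] at h5
    exact hnd ⟨_, h5⟩

theorem weil_as : S_WEIL := by
  intro p hp k _ _ _ f hf hpf
  have hp1 : 1 < p := hp.out.one_lt
  refine ⟨(Pool.Agent.R410.PW.WC p f.natDegree 0 : ℝ), ?_⟩
  intro E _ _ _
  have : CharP E p := charP_of_injective_algebraMap (algebraMap k E).injective p
  have : CharP (AlgebraicClosure E) p :=
    charP_of_injective_algebraMap (algebraMap E (AlgebraicClosure E)).injective p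
  obtain ⟨F, hF⟩ : ∃ F : E[X], F = f.map (algebraMap k E) := ⟨_, rfl⟩
  obtain ⟨g, hg⟩ : ∃ g : E[X][X], g = X ^ p - X - C F := ⟨_, rfl⟩
  have hFd : F.natDegree = f.natDegree := by rw [hF, natDegree_map]
  have hgm : g.Monic := by
    have h1 : g = X ^ p - (X + C F) := by rw [hg]; ring
    rw [h1]
    apply monic_X_pow_sub
    rw [degree_X_add_C]
    exact_mod_cast hp1
  have hgd : g.natDegree = p := by
    rw [hg, natDegree_sub_C]
    have : (X ^ p - X : E[X][X]).natDegree = (X ^ p : E[X][X]).natDegree := by
      apply natDegree_sub_eq_left_of_natDegree_lt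
      rw [natDegree_X, natDegree_X_pow]
      exact hp1
    rw [this, natDegree_X_pow]
  have hder : derivative g = -1 := by
    have hp0 : (p : E[X]) = 0 := CharP.cast_eq_zero E[X] p
    rw [hg, derivative_sub, derivative_sub, derivative_X_pow, derivative_X, derivative_C, hp0,
      C_0, zero_mul]
    ring
  have hcoef : ∀ i, (g.coeff i).natDegree ≤ f.natDegree := by
    intro i
    rw [hg, coeff_sub, coeff_sub, coeff_X_pow, coeff_X, coeff_C]
    have h1 : ((if i = p then 1 else 0 : E[X]) - (if 1 = i then 1 else 0)).natDegree = 0 := by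
      have h2 : ((if i = p then 1 else 0 : E[X]) - (if 1 = i then 1 else 0)) =
          C ((if i = p then 1 else 0 : E) - (if 1 = i then 1 else 0)) := by
        split_ifs <;> simp
      rw [h2, natDegree_C]
    have h3 : (if i = 0 then F else 0 : E[X]).natDegree ≤ f.natDegree := by
      split_ifs
      · rw [hFd]
      · simp
    refine (natDegree_sub_le _ _).trans ?_
    rw [h1]
    exact max_le (Nat.zero_le _) h3
  have hirr : Irreducible (g.map (mapRingHom (algebraMap E (AlgebraicClosure E)))) := by
    have h1 : g.map (mapRingHom (algebraMap E (AlgebraicClosure E))) =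
        X ^ p - X - C (F.map (algebraMap E (AlgebraicClosure E))) := by
      rw [hg]
      simp
    rw [h1]
    apply as_irr
    · rw [natDegree_map, hFd]; exact hf
    · rw [natDegree_map, hFd]; exact hpf
  have h := Pool.Agent.R410.PW.weil (AlgebraicClosure E) (f := g) (A := 0) (B := -1) (D := 1) hgm
    (by rw [hgd]; omega) (by rw [hder, C_1]; ring) one_ne_zero (δ := 0) (by simp)
    (d := f.natDegree) hcoef hirr
  rw [hgd] at h
  have hset : Nat.card {z : E × E // z.2 ^ p - z.2 = aeval z.1 f} =
      {z : E × E | evalEval z.1 z.2 g = 0}.ncard := by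
    rw [← Nat.card_coe_set_eq]
    apply Nat.card_congr
    apply Equiv.subtypeEquivRight
    intro z
    have h1 : evalEval z.1 z.2 g = z.2 ^ p - z.2 - aeval z.1 f := by
      rw [hg, hF]
      simp [evalEval, eval_map_algebraMap]
    show _ ↔ evalEval z.1 z.2 g = 0
    rw [h1, sub_eq_zero]
  rw [hset]
  exact h

end Pool.Agent.H856.WC
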